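import Pool.Agent.OmSt.Finite

/-!
# First returns and the closing of orbits at nonwandering points

`FirstRet f x W`: there are points close to `x` whose first return to `W` is close to `x`.
-/

open Set Filter Topology Manifold ContDiff Metric

set_option linter.unusedSectionVars false

namespace OmIso

open OmSt

section Top

variable {X : Type*} [TopologicalSpace X]

/-- In every neighbourhood of `x` there is a piece of orbit which starts and ends in this
neighbourhood and does not meet `W` in between. -/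
def FirstRet (f : X → X) (x : X) (W : Set X) : Prop :=
  ∀ V ∈ 𝓝 x, ∃ p ∈ V, ∃ k > 0, f^[k] p ∈ V ∧ ∀ j, 0 < j → j < k → f^[j] p ∉ W

theorem FirstRet.mono {f : X → X} {x : X} {W W' : Set X} (h : FirstRet f x W) (hW : W' ⊆ W) :
    FirstRet f x W' := by
  intro V hV
  obtain ⟨p, hp, k, hk, hkV, h1⟩ := h V hV
  exact ⟨p, hp, k, hk, hkV, fun j hj hjk hjW => h1 j hj hjk (hW hjW)⟩

open Classical in
/-- The number of visits of the piece of orbit `p, f p, ..., f^(k-1) p` to the set `K`. -/
noncomputable def visits (f : X → X) (K : Set X) (p : X) (k : ℕ) : ℕ :=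
  ((Finset.range k).filter fun j => f^[j] p ∈ K).card

theorem visits_add (f : X → X) (K : Set X) (p : X) {j k : ℕ} (hjk : j ≤ k) :
    visits f K p j + visits f K (f^[j] p) (k - j) = visits f K p k := by
  classical
  unfold visits
  have h1 : ((Finset.range k).filter fun i => f^[i] p ∈ K) =
      ((Finset.range j).filter fun i => f^[i] p ∈ K) ∪
        (((Finset.range (k - j)).filter fun i => f^[i] (f^[j] p) ∈ K).map
          (addRightEmbedding j)) := by
    ext i
    simp only [Finset.mem_filter, Finset.mem_range, Finset.mem_union, Finset.mem_map,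
      addRightEmbedding_apply]
    constructor
    · rintro ⟨hi, hiK⟩
      rcases lt_or_ge i j with h | h
      · exact Or.inl ⟨h, hiK⟩
      · refine Or.inr ⟨i - j, ⟨by omega, ?_⟩, by omega⟩
        rw [← Function.iterate_add_apply, Nat.sub_add_cancel h]
        exact hiK
    · rintro (⟨hi, hiK⟩ | ⟨a, ⟨ha, haK⟩, rfl⟩)
      · exact ⟨by omega, hiK⟩
      · refine ⟨by omega, ?_⟩
        rw [Function.iterate_add_apply]
        exact haK
  rw [h1, Finset.card_union_of_disjoint, Finset.card_map]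
  rw [Finset.disjoint_left]
  intro i hi hi'
  simp only [Finset.mem_filter, Finset.mem_range, Finset.mem_map, addRightEmbedding_apply] at hi hi'
  obtain ⟨a, -, rfl⟩ := hi'
  omega

theorem visits_pos {f : X → X} {K : Set X} {p : X} {k : ℕ} (h : ∃ j < k, f^[j] p ∈ K) :
    0 < visits f K p k := by
  classical
  obtain ⟨j, hj, hjK⟩ := h
  exact Finset.card_pos.2 ⟨j, by simp [hj, hjK]⟩

/-- **Bounded visits give first returns.** If `x` is nonwandering, all pieces of orbits between
points of the neighbourhood `V₀` of `x` visit the set `K`, and the number of visits to `K` of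
orbits starting in `V₀` is bounded, then there are first returns close to `x`. -/
theorem exists_firstRet {f : X → X} {x : X} (hx : x ∈ nonwandering f) {V₀ K : Set X}
    (hV₀ : V₀ ∈ 𝓝 x) (h1 : ∀ p ∈ V₀, ∀ k > 0, f^[k] p ∈ V₀ → ∃ j < k, f^[j] p ∈ K) {C : ℕ}
    (h2 : ∀ p ∈ V₀, ∀ k, visits f K p k ≤ C) :
    ∃ W ∈ 𝓝 x, FirstRet f x W := by
  classical
  set Q : ℕ → Prop := fun N => ∀ V ∈ 𝓝 x, ∃ p ∈ V, ∃ k > 0, f^[k] p ∈ V ∧ visits f K p k ≤ N
    with hQ
  have hQC : Q C := by
    intro V hV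
    obtain ⟨n, hn, w, ⟨p, hp, rfl⟩, hw⟩ := hx _ (inter_mem hV hV₀)
    exact ⟨p, hp.1, n, hn, hw.1, h2 p hp.2 n⟩
  have hex : ∃ N, Q N := ⟨C, hQC⟩
  have hN := Nat.find_spec hex
  have hmin := fun m => Nat.find_min hex (m := m)
  set N := Nat.find hex with hNdef
  rcases Nat.eq_zero_or_pos N with h0 | h0
  · obtain ⟨p, hp, k, hk, hkV, hle⟩ := hN V₀ hV₀
    have := visits_pos (h1 p hp k hk hkV)
    omega
  · have h3 : ¬ Q (N - 1) := hmin _ (by omega)
    have h4 : ∃ V₂ ∈ 𝓝 x, ∀ p ∈ V₂, ∀ k > 0, f^[k] p ∈ V₂ → N - 1 < visits f K p k := by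
      by_contra hcon
      push Not at hcon
      refine h3 fun V hV => ?_
      obtain ⟨p, hp, k, hk, hkV, hle⟩ := hcon V hV
      exact ⟨p, hp, k, hk, hkV, hle⟩
    obtain ⟨V₂, hV₂, h5⟩ := h4
    refine ⟨V₂, hV₂, fun V hV => ?_⟩
    obtain ⟨p, hp, k, hk, hkV, hle⟩ := hN _ (inter_mem hV hV₂)
    refine ⟨p, hp.1, k, hk, hkV.1, fun j hj hjk hjV => ?_⟩
    have h6 := h5 p hp.2 j hj hjV
    have h7 := h5 (f^[j] p) hjV (k - j) (by omega) (by
      rw [← Function.iterate_add_apply, Nat.sub_add_cancel hjk.le]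
      exact hkV.2)
    have h8 := visits_add f K p hjk.le
    omega

/-- A compact set of wandering points is visited boundedly often. -/
theorem exists_visits_le {f : X → X} {K : Set X} (hK : IsCompact K)
    (hKw : ∀ y ∈ K, y ∉ nonwandering f) : ∃ C, ∀ p k, visits f K p k ≤ C := by
  classical
  have h1 : ∀ y ∈ K, ∃ U ∈ 𝓝 y, ∀ n > 0, ∀ z ∈ U, f^[n] z ∉ U := by
    intro y hy
    have h2 := hKw y hy
    simp only [nonwandering, mem_ofPred_eq, not_forall] at h2
    obtain ⟨U, hU, h3⟩ := h2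
    refine ⟨U, hU, fun n hn z hz hnz => h3 ⟨n, hn, f^[n] z, ⟨z, hz, rfl⟩, hnz⟩⟩
  choose! U hU hUn using h1
  obtain ⟨t, htK, ht⟩ := hK.elim_nhds_subcover U hU
  refine ⟨t.card, fun p k => ?_⟩
  have : Nonempty X := ⟨p⟩
  have h4 : ∀ j ∈ (Finset.range k).filter (fun j => f^[j] p ∈ K), ∃ y ∈ t, f^[j] p ∈ U y := by
    intro j hj
    obtain ⟨y, hy, hyU⟩ := mem_iUnion₂.1 (ht (Finset.mem_filter.1 hj).2)
    exact ⟨y, hy, hyU⟩
  choose! c hct hcU using h4
  refine Finset.card_le_card_of_injOn c hct ?_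
  have key : ∀ i j, i < j → i ∈ (Finset.range k).filter (fun j => f^[j] p ∈ K) →
      j ∈ (Finset.range k).filter (fun j => f^[j] p ∈ K) → c i ≠ c j := by
    intro i j hij hi hj heq
    have h5 := hcU i hi
    have h6 := hcU j hj
    rw [← heq] at h6
    refine hUn (c i) (htK _ (hct i hi)) (j - i) (by omega) _ h5 ?_
    rw [← Function.iterate_add_apply, Nat.sub_add_cancel hij.le]
    exact h6
  intro i hi j hj heq
  by_contra hne
  rcases Nat.lt_or_gt_of_ne hne with h | h
  · exact key i j h hi hj heq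
  · exact key j i h hj hi heq.symm

/-- First returns at a point which is isolated in the nonwandering set. -/
theorem exists_firstRet_of_isolated [T2Space X] [CompactSpace X] {f : X → X} {x : X}
    (hx : x ∈ nonwandering f) {U : Set X} (hU : U ∈ 𝓝 x)
    (hiso : ∀ y ∈ U, y ∈ nonwandering f → y = x) : ∃ W ∈ 𝓝 x, FirstRet f x W := by
  classical
  obtain ⟨W₀, hW₀, hW₀c, hW₀U⟩ := exists_mem_nhds_isClosed_subset hU
  by_cases hFR : FirstRet f x W₀
  · exact ⟨W₀, hW₀, hFR⟩
  simp only [FirstRet, not_forall] at hFR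
  obtain ⟨V, hV, hVn⟩ := hFR
  set V₀ : Set X := interior (V ∩ W₀) with hV₀
  have hV₀x : V₀ ∈ 𝓝 x := interior_mem_nhds.2 (inter_mem hV hW₀)
  have hV₀s : V₀ ⊆ V ∩ W₀ := interior_subset
  set K : Set X := W₀ \ V₀ with hK
  have hKc : IsCompact K := (hW₀c.sdiff isOpen_interior).isCompact
  obtain ⟨C, hC⟩ := exists_visits_le (f := f) hKc (by
    rintro y ⟨hy, hyV⟩ hyΩ
    refine hyV ?_
    rw [hiso y (hW₀U hy) hyΩ]
    exact mem_of_mem_nhds hV₀x)
  refine exists_firstRet hx hV₀x (K := K) (fun p hp k hk hkV => ?_) (fun p _ k => hC p k)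
  -- the first return to `V₀`
  have hex : ∃ n, 0 < n ∧ f^[n] p ∈ V₀ := ⟨k, hk, hkV⟩
  have hn := Nat.find_spec hex
  have hmin := fun m => Nat.find_min hex (m := m)
  set n := Nat.find hex with hndef
  have hnk : n ≤ k := Nat.find_min' hex ⟨hk, hkV⟩
  have h3 : ∃ j, 0 < j ∧ j < n ∧ f^[j] p ∈ W₀ := by
    by_contra hcon
    push Not at hcon
    exact hVn ⟨p, (hV₀s hp).1, n, hn.1, (hV₀s hn.2).1, hcon⟩
  obtain ⟨j, hj, hjn, hjW⟩ := h3
  refine ⟨j, by omega, hjW, fun hjV => hmin j hjn ⟨hj, hjV⟩⟩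

/-- First returns at a nonwandering point with a neighbourhood in which returns are bounded. -/
theorem exists_firstRet_of_bounded {f : X → X} {x : X} (hx : x ∈ nonwandering f) {U : Set X}
    (hU : U ∈ 𝓝 x) {N : ℕ} (hN : ∀ y ∈ U, {k : ℕ | 0 < k ∧ f^[k] y ∈ U}.encard < N) :
    ∃ W ∈ 𝓝 x, FirstRet f x W := by
  classical
  refine exists_firstRet hx hU (K := U) (fun p hp k hk _ => ⟨0, hk, hp⟩) (C := N)
    (fun p hp k => ?_)
  unfold visits
  have h1 : (((Finset.range k).filter fun j => f^[j] p ∈ U : Finset ℕ) : Set ℕ) ⊆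
      insert 0 {k : ℕ | 0 < k ∧ f^[k] p ∈ U} := by
    intro j hj
    rw [Finset.mem_coe, Finset.mem_filter] at hj
    rcases Nat.eq_zero_or_pos j with h | h
    · exact Or.inl h
    · exact Or.inr ⟨h, hj.2⟩
  have h2 := encard_le_encard h1
  rw [Set.encard_coe_eq_coe_finsetCard] at h2
  have h3 := (h2.trans (encard_insert_le _ _))
  have h4 := hN p hp
  have h5 : {k : ℕ | 0 < k ∧ f^[k] p ∈ U}.encard + 1 ≤ (N : ℕ∞) := Order.add_one_le_of_lt h4
  exact_mod_cast h3.trans h5

end Top

variable {E : Type*} [NormedAddCommGroup E] [NormedSpace ℝ E]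
  {M : Type*} [TopologicalSpace M] [ChartedSpace E M] {r : ℕ∞} [IsManifold 𝓘(ℝ, E) ∞ M]

/-- **Closing.** First returns cannot occur away from the periodic points of an `Ω`-stable
diffeomorphism. -/
theorem not_firstRet [FiniteDimensional ℝ E] [CompactSpace M] [T2Space M]
    {N : Set (Dyn E M r)} (hN : Stab N) (hr : 1 ≤ r) {f : Dyn E M r} (hf : f ∈ N) {x : M}
    {W : Set M} (hW : W ∈ 𝓝 x) (hper : ∀ y ∈ W, y ∉ Function.periodicPts f)
    (hret : FirstRet f x W) : False := by
  have hxs : x ∈ (chartAt E x).source := mem_chart_source E x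
  set e := chartAt E x with he
  obtain ⟨Ψ, ρ, hρ, hρt, -, hΨW, hΨ⟩ := exists_localFam
    (IsManifold.chart_mem_maximalAtlas (n := ∞) (I := 𝓘(ℝ, E)) x)
    ((chartAt E x).map_source (mem_chart_source E x)) (W := W)
    (by rwa [(chartAt E x).left_inv (mem_chart_source E x)])
  set Φ : Fam E M E := Ψ.reparam (ContinuousLinearMap.inl ℝ E (E →L[ℝ] E)) with hΦ
  have hΦa : ∀ v, Φ.toFun v = Ψ.toFun (v, 0) := fun v => rfl
  have hL : Tendsto (fun v : E => ((v, 0) : E × (E →L[ℝ] E))) (𝓝 0) (𝓝 0) := by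
    have : Continuous (fun v : E => ((v, 0) : E × (E →L[ℝ] E))) := by fun_prop
    exact this.tendsto' _ _ rfl
  obtain ⟨δ, hδ, hball⟩ := Metric.nhds_basis_ball.mem_iff.1
    ((Φ.eventually_mem f hN.isOpen hf).and (hL.eventually hΨ))
  -- the small neighbourhood
  have hV : (e.source ∩ e ⁻¹' ball (e x) (min (δ / 2) ρ)) ∩ W ∈ 𝓝 x := by
    refine inter_mem (inter_mem (e.open_source.mem_nhds hxs) ?_) hW
    exact (e.continuousAt hxs) (ball_mem_nhds _ (lt_min (half_pos hδ) hρ))
  obtain ⟨p, ⟨⟨hps, hpb⟩, hpW⟩, k, hk, ⟨⟨hqs, hqb⟩, hqW⟩, hno⟩ := hret _ hV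
  set q : M := f^[k] p with hq
  set v : E := e p - e q with hv
  have hvδ : v ∈ ball (0 : E) δ := by
    have h1 : dist (e p) (e x) < δ / 2 := (mem_ball.1 hpb).trans_le (min_le_left _ _)
    have h2 : dist (e q) (e x) < δ / 2 := (mem_ball.1 hqb).trans_le (min_le_left _ _)
    rw [mem_ball_zero_iff, hv, ← dist_eq_norm]
    calc dist (e p) (e q) ≤ dist (e p) (e x) + dist (e q) (e x) := dist_triangle_right _ _ _
      _ < δ := by linarith
  obtain ⟨hgN, hgΨ⟩ := hball hvδ
  have hqρ : e q ∈ closedBall (e x) ρ :=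
    ball_subset_closedBall (ball_subset_ball (min_le_right _ _) hqb)
  have hψq : Φ.toFun v q = p := by
    have h1 := (hgΨ (e q) hqρ).1
    have h2 : e.symm (e q) = q := e.left_inv hqs
    have h3 : e q + (v + (0 : E →L[ℝ] E) (e q - e x)) = e p := by
      simp [hv]
    rw [h2] at h1
    rw [hΦa, h1]
    simp only
    rw [h3, e.left_inv hps]
  have hψW : ∀ z ∉ W, Φ.toFun v z = z := fun z hz => hΨW _ z hz
  set g : Dyn E M r := pert f (Φ.toFun v) with hg
  -- the new periodic point
  have hgq : ∀ j, 0 < j → j ≤ k → g^[j] q = f^[j] p := by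
    intro j hj hjk
    induction j with
    | zero => omega
    | succ j ih =>
      rw [Function.iterate_succ_apply', Function.iterate_succ_apply']
      rcases Nat.eq_zero_or_pos j with h | h
      · subst h
        rw [Function.iterate_zero_apply, Function.iterate_zero_apply, hg, pert_apply, hψq]
      · rw [ih h (by omega), hg, pert_apply, hψW _ (hno j h (by omega))]
  have hgqk : g^[k] q = q := hgq k hk le_rfl
  -- the old periodic points
  have hold : ∀ z, f^[k] z = z → g^[k] z = z := by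
    intro z hz
    have h1 : ∀ j, f^[j] z ∉ W := by
      intro j hjW
      refine hper _ hjW ⟨k, hk, ?_⟩
      change f^[k] (f^[j] z) = f^[j] z
      rw [← Function.iterate_add_apply, add_comm, Function.iterate_add_apply, hz]
    have h2 : ∀ j, g^[j] z = f^[j] z := by
      intro j
      induction j with
      | zero => rfl
      | succ j ih =>
        rw [Function.iterate_succ_apply', Function.iterate_succ_apply', ih, hg, pert_apply,
          hψW _ (h1 j)]
    rw [h2, hz]
  have hfin := hN.fix_finite hr k hk f hf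
  have hcard := hN.encard_eq hf hgN (fun S => k ∈ S) (fun S hS => ⟨k, hk, hS⟩)
  simp only [mem_ofPred_eq] at hcard
  have hsub : {z | f^[k] z = z} ⊆ {z | g^[k] z = z} := hold
  have heq := hfin.eq_of_subset_of_encard_le hsub hcard.ge
  have hqf : q ∈ {z | f^[k] z = z} := by
    rw [heq]
    exact hgqk
  exact hper q hqW ⟨k, hk, hqf⟩

/-- **Isolated nonwandering points are periodic.** -/
theorem periodic_of_isolated [FiniteDimensional ℝ E] [CompactSpace M] [T2Space M]
    {N : Set (Dyn E M r)} (hN : Stab N) (hr : 1 ≤ r) {f : Dyn E M r} (hf : f ∈ N) {x : M}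
    (hx : x ∈ nonwandering f) {U : Set M} (hU : U ∈ 𝓝 x)
    (hiso : ∀ y ∈ U, y ∈ nonwandering f → y = x) : x ∈ Function.periodicPts f := by
  by_contra hcon
  obtain ⟨W, hW, hret⟩ := exists_firstRet_of_isolated hx hU hiso
  refine not_firstRet hN hr hf (inter_mem hW hU) (fun y hy hyp => ?_)
    (hret.mono inter_subset_left)
  have := hiso y hy.2 (mem_nonwandering_of_periodic hyp)
  exact hcon (this ▸ hyp)

theorem isClosed_nonwandering {X : Type*} [TopologicalSpace X] (f : X → X) :
    IsClosed (nonwandering f) := by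
  rw [← isOpen_compl_iff, isOpen_iff_mem_nhds]
  intro y hy
  have hy' : ∃ U ∈ 𝓝 y, ¬ ∃ n > 0, (f^[n] '' U ∩ U).Nonempty := by
    by_contra hcon
    push Not at hcon
    refine hy fun U hU => ?_
    obtain ⟨n, hn, hne⟩ := hcon U hU
    exact ⟨n, hn, hne⟩
  obtain ⟨U, hU, hUn⟩ := hy'
  filter_upwards [eventually_mem_nhds_iff.2 hU] with z hz hzΩ
  exact hUn (hzΩ U hz)

/-- **The main theorem**, for stable sets of diffeomorphisms. -/
theorem main [FiniteDimensional ℝ E] [CompactSpace M] [T2Space M]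
    {N : Set (Dyn E M r)} (hN : Stab N) (hr : 1 ≤ r) {f : Dyn E M r} (hf : f ∈ N) {x : M}
    (hx : x ∈ nonwandering f) (hxP : x ∉ closure (Function.periodicPts f)) {U : Set M}
    (hU : U ∈ 𝓝 x) :
    ¬ (U ∩ nonwandering f).Countable ∧
      ∀ n : ℕ, ∃ y ∈ U, (n : ℕ∞) ≤ {k : ℕ | 0 < k ∧ f^[k] y ∈ U}.encard := by
  constructor
  · intro hcount
    set O : Set M := interior U \ closure (Function.periodicPts f) with hO
    have hOo : IsOpen O := isOpen_interior.sdiff isClosed_closure
    have hxO : x ∈ O := ⟨mem_interior_iff_mem_nhds.2 hU, hxP⟩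
    have hΩc : IsClosed (nonwandering (f : M → M)) := isClosed_nonwandering _
    have : CompactSpace (nonwandering (f : M → M)) := isCompact_iff_compactSpace.1 hΩc.isCompact
    set Y : Set (nonwandering (f : M → M)) := Subtype.val ⁻¹' O with hY
    have hYo : IsOpen Y := hOo.preimage continuous_subtype_val
    have : LocallyCompactSpace Y := hYo.locallyCompactSpace
    have : Nonempty Y := ⟨⟨⟨x, hx⟩, hxO⟩⟩
    have : Countable Y := by
      have h1 : Function.Injective (fun y : Y => (⟨(y : nonwandering (f : M → M)), ⟨interior_subset y.2.1,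
          y.1.2⟩⟩ : (U ∩ nonwandering (f : M → M) : Set M))) := by
        intro a b hab
        have := congrArg Subtype.val hab
        exact Subtype.ext (Subtype.ext this)
      have : Countable (U ∩ nonwandering (f : M → M) : Set M) := hcount.to_subtype
      exact h1.countable
    obtain ⟨y, hy⟩ := nonempty_interior_of_iUnion_of_closed (f := fun y : Y => ({y} : Set Y))
      (fun y => isClosed_singleton) (eq_univ_of_forall fun y => mem_iUnion.2 ⟨y, rfl⟩)
    obtain ⟨z, hz⟩ := hy
    have hzy' : z ∈ ({y} : Set Y) := interior_subset hz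
    have hzy : z = y := hzy'
    subst hzy
    obtain ⟨V, hV, hVz⟩ := isOpen_induced_iff.1 (isOpen_interior (s := ({z} : Set Y)))
    obtain ⟨V', hV', hVV'⟩ := isOpen_induced_iff.1 hV
    have hzV : ((z : nonwandering (f : M → M)) : M) ∈ V' := by
      rw [← hVz] at hz
      have h1 : (z : nonwandering (f : M → M)) ∈ V := hz
      rw [← hVV'] at h1
      exact h1
    refine z.2.2 (subset_closure (periodic_of_isolated hN hr hf z.1.2
      ((hV'.inter hOo).mem_nhds ⟨hzV, z.2⟩) fun y hy hyΩ => ?_))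
    have h2 : (⟨⟨y, hyΩ⟩, hy.2⟩ : Y) ∈ interior ({z} : Set Y) := by
      rw [← hVz]
      change (⟨y, hyΩ⟩ : nonwandering (f : M → M)) ∈ V
      rw [← hVV']
      exact hy.1
    have h3' : (⟨⟨y, hyΩ⟩, hy.2⟩ : Y) ∈ ({z} : Set Y) := interior_subset h2
    have h3 : (⟨⟨y, hyΩ⟩, hy.2⟩ : Y) = z := h3'
    exact congrArg (fun w : Y => ((w : nonwandering (f : M → M)) : M)) h3
  · by_contra hcon
    push Not at hcon
    obtain ⟨n, hn⟩ := hcon
    obtain ⟨W, hW, hret⟩ := exists_firstRet_of_bounded hx hU hn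
    have hP : (closure (Function.periodicPts (f : M → M)))ᶜ ∈ 𝓝 x :=
      isClosed_closure.isOpen_compl.mem_nhds hxP
    exact not_firstRet hN hr hf (inter_mem hW hP) (fun y hy hyp => hy.2 (subset_closure hyp))
      (hret.mono inter_subset_left)

end OmIso
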